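import Mathlib

/-! Polynomials of degree at most `k` on `F_2^n` over an arbitrary field, isolating families. -/

set_option autoImplicit false

namespace Pool.Agent.Q108.CF

open Finset

/-- the vector space `F_2^n` -/
abbrev V (n : ℕ) := Fin n → ZMod 2

/-- the monomial `∏_{i ∈ S} [x i = 1]`, with values in the field `K` -/
def mono (K : Type) [Field K] {n : ℕ} (S : Finset (Fin n)) : V n → K :=
  fun x => if ∀ i ∈ S, x i = 1 then 1 else 0

/-- the space of the functions `F_2^n → K` of degree at most `k` -/
def Poly (K : Type) [Field K] (n k : ℕ) : Submodule K (V n → K) :=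
  Submodule.span K {f | ∃ S : Finset (Fin n), S.card ≤ k ∧ f = mono K S}

/-- number of subsets with at most `k` elements of a set with `n` elements -/
def ball (n k : ℕ) : ℕ := ∑ i ∈ range (k + 1), n.choose i

variable {K : Type} [Field K] {n : ℕ}

/-- the finite set of the monomials of degree at most `k` -/
def monos (n k : ℕ) : Finset (Finset (Fin n)) := univ.filter fun S => S.card ≤ k

theorem card_monos (n k : ℕ) : (monos n k).card = ball n k := by
  have h : monos n k = (range (k + 1)).biUnion fun i => powersetCard i (univ : Finset (Fin n)) := by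
    ext S
    simp only [monos, mem_filter, mem_univ, true_and, mem_biUnion, mem_range, mem_powersetCard,
      subset_univ]
    constructor
    · intro h
      exact ⟨S.card, by omega, rfl⟩
    · rintro ⟨i, hi, rfl⟩
      omega
  rw [h, card_biUnion]
  · unfold ball
    refine Finset.sum_congr rfl fun i _ => ?_
    rw [card_powersetCard]
    simp
  · intro i _ j _ hij
    change Disjoint _ _
    rw [Finset.disjoint_left]
    intro S hS hS'
    rw [mem_powersetCard] at hS hS'
    exact hij (hS.2.symm.trans hS'.2)

theorem mem_monos {k : ℕ} {S : Finset (Fin n)} : S ∈ monos n k ↔ S.card ≤ k := by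
  simp [monos]

theorem mono_mem {k : ℕ} {S : Finset (Fin n)} (h : S.card ≤ k) : mono K S ∈ Poly K n k :=
  Submodule.subset_span ⟨S, h, rfl⟩

theorem poly_mono {k l : ℕ} (h : k ≤ l) : Poly K n k ≤ Poly K n l := by
  refine Submodule.span_le.2 ?_
  rintro f ⟨S, hS, rfl⟩
  exact mono_mem (hS.trans h)

theorem one_mem (k : ℕ) : (fun _ => 1 : V n → K) ∈ Poly K n k := by
  have h : (fun _ => 1 : V n → K) = mono K ∅ := by
    ext x
    simp [mono]
  rw [h]
  exact mono_mem (by simp)

theorem mono_mul (S T : Finset (Fin n)) : mono K S * mono K T = mono K (S ∪ T) := by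
  ext x
  simp only [mono, Pi.mul_apply, mem_union]
  by_cases h1 : ∀ i ∈ S, x i = 1
  · by_cases h2 : ∀ i ∈ T, x i = 1
    · rw [if_pos h1, if_pos h2, if_pos, one_mul]
      intro i hi
      rcases hi with hi | hi
      · exact h1 i hi
      · exact h2 i hi
    · rw [if_neg h2, mul_zero, if_neg]
      exact fun h => h2 fun i hi => h i (Or.inr hi)
  · rw [if_neg h1, zero_mul, if_neg]
    exact fun h => h1 fun i hi => h i (Or.inl hi)

theorem mul_mem {k l : ℕ} {f g : V n → K} (hf : f ∈ Poly K n k) (hg : g ∈ Poly K n l) :
    f * g ∈ Poly K n (k + l) := by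
  unfold Poly at hf
  induction hf using Submodule.span_induction with
  | mem f hf =>
    obtain ⟨S, hS, rfl⟩ := hf
    unfold Poly at hg
    induction hg using Submodule.span_induction with
    | mem g hg =>
      obtain ⟨T, hT, rfl⟩ := hg
      rw [mono_mul]
      exact mono_mem ((card_union_le _ _).trans (Nat.add_le_add hS hT))
    | zero => rw [mul_zero]; exact Submodule.zero_mem _
    | add g h _ _ ihg ihh => rw [mul_add]; exact Submodule.add_mem _ ihg ihh
    | smul a g _ ihg => rw [mul_smul_comm]; exact Submodule.smul_mem _ _ ihg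
  | zero => rw [zero_mul]; exact Submodule.zero_mem _
  | add g h _ _ ihg ihh => rw [add_mul]; exact Submodule.add_mem _ ihg ihh
  | smul a g _ ihg => rw [smul_mul_assoc]; exact Submodule.smul_mem _ _ ihg

theorem zmod2_add (a b : ZMod 2) : (a + b = 1) ↔ ((b = 0 ∧ a = 1) ∨ (b ≠ 0 ∧ a ≠ 1)) := by
  revert a b
  decide

theorem mono_shift (S : Finset (Fin n)) (a : V n) :
    (fun z => mono K S (z + a)) ∈ Poly K n S.card := by
  classical
  induction S using Finset.induction_on with
  | empty =>
    have h : (fun z => mono K (∅ : Finset (Fin n)) (z + a)) = mono K ∅ := by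
      ext z
      simp [mono]
    rw [h]
    exact mono_mem (by simp)
  | insert i S hi ih =>
    have h1 : (fun z => mono K (insert i S) (z + a)) =
        (fun z => mono K {i} (z + a)) * (fun z => mono K S (z + a)) := by
      have h2 := mono_mul (K := K) ({i} : Finset (Fin n)) S
      ext z
      have h3 := congrFun h2 (z + a)
      rw [Pi.mul_apply] at h3 ⊢
      rw [h3, insert_eq]
    rw [h1, card_insert_of_notMem hi, Nat.add_comm]
    refine mul_mem ?_ ih
    by_cases ha : a i = 0
    · have h4 : (fun z => mono K {i} (z + a)) = mono K {i} := by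
        ext z
        simp [mono, ha]
      rw [h4]
      exact mono_mem (by simp)
    · have h4 : (fun z => mono K {i} (z + a)) = (fun _ => 1) - mono K {i} := by
        ext z
        simp only [mono, mem_singleton, forall_eq, Pi.add_apply, Pi.sub_apply]
        by_cases hz : z i = 1
        · rw [if_pos hz, if_neg, sub_self]
          rw [zmod2_add]
          simp [ha, hz]
        · rw [if_neg hz, if_pos, sub_zero]
          rw [zmod2_add]
          right
          exact ⟨ha, hz⟩
      rw [h4]
      exact Submodule.sub_mem _ (one_mem 1) (mono_mem (by simp))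

theorem shift_mem {k : ℕ} {f : V n → K} (hf : f ∈ Poly K n k) (a : V n) :
    (fun z => f (z + a)) ∈ Poly K n k := by
  unfold Poly at hf
  induction hf using Submodule.span_induction with
  | mem f hf =>
    obtain ⟨S, hS, rfl⟩ := hf
    exact poly_mono hS (mono_shift S a)
  | zero => exact Submodule.zero_mem _
  | add g h _ _ ihg ihh => exact Submodule.add_mem _ ihg ihh
  | smul a g _ ihg => exact Submodule.smul_mem _ _ ihg

/-- coefficients -/
theorem exists_coeff {k : ℕ} {f : V n → K} (hf : f ∈ Poly K n k) :
    ∃ c : Finset (Fin n) → K, ∀ z, f z = ∑ S ∈ monos n k, c S * mono K S z := by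
  unfold Poly at hf
  induction hf using Submodule.span_induction with
  | mem f hf =>
    obtain ⟨S, hS, rfl⟩ := hf
    rw [← mem_monos] at hS
    refine ⟨fun T => if T = S then 1 else 0, fun z => ?_⟩
    simp only [ite_mul, one_mul, zero_mul, sum_ite_eq']
    rw [if_pos hS]
  | zero => exact ⟨fun _ => 0, fun z => by simp⟩
  | add g h _ _ ihg ihh =>
    obtain ⟨c, hc⟩ := ihg
    obtain ⟨d, hd⟩ := ihh
    refine ⟨fun S => c S + d S, fun z => ?_⟩
    rw [Pi.add_apply, hc, hd, ← sum_add_distrib]
    exact Finset.sum_congr rfl fun S _ => by ring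
  | smul a g _ ihg =>
    obtain ⟨c, hc⟩ := ihg
    refine ⟨fun S => a * c S, fun z => ?_⟩
    rw [Pi.smul_apply, smul_eq_mul, hc, mul_sum]
    exact Finset.sum_congr rfl fun S _ => by ring

open scoped Classical in
/-- Isolating functions with few errors: if in every subset `Y'` of `Y` there are at most `r |Y'|`
pairs `y ≠ y'` with `P y y' ≠ 0`, then `|Y| ≤ (r + 1) dim W`. -/
theorem exists_indep {α : Type} (P : α → α → K) (r : ℕ) (Y : Finset α)
    (h0 : ∀ y ∈ Y, P y y ≠ 0)
    (h1 : ∀ Y' ⊆ Y, ((Y' ×ˢ Y').filter fun q => q.1 ≠ q.2 ∧ P q.1 q.2 ≠ 0).card ≤ r * Y'.card) :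
    ∃ Z ⊆ Y, Y.card ≤ (r + 1) * Z.card ∧ LinearIndepOn K P (Z : Set α) := by
  classical
  induction Y using Finset.strongInduction with
  | H Y ih =>
    rcases Y.eq_empty_or_nonempty with rfl | hne
    · exact ⟨∅, subset_rfl, by simp, by simp⟩
    -- a vertex of small in-degree
    have hin : ∃ y ∈ Y, (Y.filter fun y' => y' ≠ y ∧ P y' y ≠ 0).card ≤ r := by
      by_contra hcon
      push Not at hcon
      have h2 := h1 Y subset_rfl
      have h3 : ((Y ×ˢ Y).filter fun q => q.1 ≠ q.2 ∧ P q.1 q.2 ≠ 0).card =
          ∑ y ∈ Y, (Y.filter fun y' => y' ≠ y ∧ P y' y ≠ 0).card := by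
        rw [card_filter, sum_product_right]
        refine Finset.sum_congr rfl fun y _ => ?_
        rw [card_filter]
      have h4 : ∑ y ∈ Y, (r + 1) ≤ ∑ y ∈ Y, (Y.filter fun y' => y' ≠ y ∧ P y' y ≠ 0).card :=
        Finset.sum_le_sum fun y hy => hcon y hy
      rw [sum_const, smul_eq_mul] at h4
      have h5 : 0 < Y.card := hne.card_pos
      nlinarith
    obtain ⟨y, hy, hyr⟩ := hin
    set I := Y.filter fun y' => y' ≠ y ∧ P y' y ≠ 0 with hI
    set Y' := Y.filter fun y' => y' ≠ y ∧ P y' y = 0 with hY'
    have hsub : Y' ⊆ Y := filter_subset _ _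
    have hss : Y' ⊂ Y := by
      refine ⟨hsub, fun h => ?_⟩
      have := h hy
      simp [hY'] at this
    obtain ⟨Z, hZ, hcard, hind⟩ := ih Y' hss (fun y hy => h0 y (hsub hy))
      (fun Y'' h => h1 Y'' (h.trans hsub))
    have hyZ : y ∉ Z := by
      intro h
      have := hZ h
      simp [hY'] at this
    refine ⟨insert y Z, ?_, ?_, ?_⟩
    · intro w hw
      rw [mem_insert] at hw
      rcases hw with rfl | hw
      · exact hy
      · exact hsub (hZ hw)
    · have h6 : Y ⊆ insert y (I ∪ Y') := by
        intro w hw
        rw [mem_insert, mem_union, hI, hY', mem_filter, mem_filter]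
        by_cases h7 : w = y
        · exact Or.inl h7
        · right
          by_cases h8 : P w y = 0
          · exact Or.inr ⟨hw, h7, h8⟩
          · exact Or.inl ⟨hw, h7, h8⟩
      have h9 := card_le_card h6
      have h10 := card_insert_le y (I ∪ Y')
      have h11 := card_union_le I Y'
      rw [card_insert_of_notMem hyZ]
      nlinarith
    · rw [coe_insert]
      refine hind.insert ?_
      intro hmem
      have h12 : ∀ g ∈ Submodule.span K (P '' (Z : Set α)), g y = 0 := by
        intro g hg
        induction hg using Submodule.span_induction with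
        | mem g hg =>
          obtain ⟨w, hw, rfl⟩ := hg
          have := hZ hw
          rw [hY', mem_filter] at this
          exact this.2.2
        | zero => rfl
        | add g h _ _ ihg ihh => rw [Pi.add_apply, ihg, ihh, add_zero]
        | smul a g _ ihg => rw [Pi.smul_apply, ihg, smul_zero]
      exact h0 y hy (h12 _ hmem)

open scoped Classical in
/-- Functions on a finite set which lie in the span of `D` functions. -/
theorem card_le_of_span {α ι : Type} (P : α → α → K) (r : ℕ) (Y : Finset α)
    (h0 : ∀ y ∈ Y, P y y ≠ 0)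
    (h1 : ∀ Y' ⊆ Y, ((Y' ×ˢ Y').filter fun q => q.1 ≠ q.2 ∧ P q.1 q.2 ≠ 0).card ≤ r * Y'.card)
    (J : Finset ι) (e : ι → α → K) (c : ι → α → K)
    (h2 : ∀ y ∈ Y, ∀ y', P y y' = ∑ j ∈ J, c j y * e j y') :
    Y.card ≤ (r + 1) * J.card := by
  classical
  obtain ⟨Z, hZ, hcard, hind⟩ := exists_indep P r Y h0 h1
  refine hcard.trans (Nat.mul_le_mul_left _ ?_)
  set W := Submodule.span K ((J.image e : Finset (α → K)) : Set (α → K)) with hW
  have hmem : ∀ z : Z, P z ∈ W := by
    intro z
    have h3 : P z = ∑ j ∈ J, c j z • e j := by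
      ext y'
      rw [h2 z (hZ z.2) y', Finset.sum_apply]
      rfl
    rw [h3]
    refine Submodule.sum_mem _ fun j hj => Submodule.smul_mem _ _ (Submodule.subset_span ?_)
    rw [mem_coe]
    exact mem_image_of_mem _ hj
  have hli : LinearIndependent K (fun z : Z => (⟨P z, hmem z⟩ : W)) := by
    have h4 : LinearIndependent K (fun z : Z => P z) := hind
    exact LinearIndependent.of_comp W.subtype h4
  have : FiniteDimensional K W := by
    rw [hW]
    infer_instance
  have h5 := hli.fintype_card_le_finrank
  rw [Fintype.card_coe] at h5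
  refine h5.trans ?_
  refine (finrank_span_finset_le_card _).trans ?_
  exact card_image_le

end Pool.Agent.Q108.CF
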