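import Pool.Agent.Q108.CF.Main

/-! A corner-free set covered by horizontal subcubes of codimension `k`. -/

set_option autoImplicit false

namespace Pool.Agent.Q108.CF

open Finset

/-- the support -/
def supp {n : ℕ} (y : V n) : Finset (Fin n) := univ.filter fun i => y i = 1

/-- the points `(x, y)` with `|y| = k` and `x = 0` on the support of `y` -/
def Ex (n k : ℕ) : Set (V n × V n) := {p | (supp p.2).card = k ∧ ∀ i, p.2 i = 1 → p.1 i = 0}

theorem Ex_cornerFree (n k : ℕ) : CornerFree (Ex n k) := by
  rintro x y z hz ⟨⟨h1, h2⟩, ⟨h3, h4⟩, ⟨h5, h6⟩⟩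
  apply hz
  simp only at h1 h2 h3 h4 h5 h6
  have hzy : ∀ i, y i = 1 → z i = 0 := by
    intro i hi
    have e1 := h2 i hi
    have e2 := h6 i hi
    rw [Pi.add_apply, e1, zero_add] at e2
    exact e2
  have h7 : supp (y + z) = supp y ∪ supp z := by
    ext i
    simp only [supp, mem_union, mem_filter, mem_univ, true_and, Pi.add_apply]
    have := hzy i
    generalize y i = a at *
    generalize z i = b at *
    revert a b
    decide
  have h8 : Disjoint (supp y) (supp z) := by
    rw [Finset.disjoint_left]
    intro i hi hi'
    simp only [supp, mem_filter, mem_univ, true_and] at hi hi'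
    rw [hzy i hi] at hi'
    exact zero_ne_one hi'
  rw [h7, card_union_of_disjoint h8, h1] at h3
  have h9 : supp z = ∅ := card_eq_zero.1 (by omega)
  ext i
  have h10 : i ∉ supp z := by rw [h9]; simp
  simp only [supp, mem_filter, mem_univ, true_and] at h10
  simp only [Pi.zero_apply]
  generalize z i = b at *
  revert b
  decide

theorem Ex_card (n k : ℕ) : (Ex n k).ncard = n.choose k * 2 ^ (n - k) := by
  classical
  have hswap : (Ex n k).ncard = (Prod.swap ⁻¹' (Ex n k)).ncard := by
    rw [← Set.image_swap_eq_preimage_swap, Set.ncard_image_of_injective _ Prod.swap_injective]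
  rw [hswap, ncard_eq_sum]
  have h1 : ∀ y : V n, {x | (y, x) ∈ Prod.swap ⁻¹' (Ex n k)}.ncard =
      if (supp y).card = k then 2 ^ (n - k) else 0 := by
    intro y
    split_ifs with h
    · have h2 : {x | (y, x) ∈ Prod.swap ⁻¹' (Ex n k)} =
          ((Fintype.piFinset fun i : Fin n => if i ∈ supp y then ({0} : Finset (ZMod 2)) else univ :
            Finset (V n)) : Set (V n)) := by
        ext x
        simp only [Ex, Set.mem_preimage, Prod.swap_prod_mk, mem_coe,
          Fintype.mem_piFinset]
        constructor
        · intro h3 i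
          split_ifs with h4
          · rw [mem_singleton]
            exact h3.2 i (by simpa [supp] using h4)
          · exact mem_univ _
        · intro h3
          refine ⟨h, fun i hi => ?_⟩
          have h5 := h3 i
          have h6 : i ∈ supp y := by simpa [supp] using hi
          rw [if_pos h6, mem_singleton] at h5
          exact h5
      rw [h2, Set.ncard_coe_finset, Fintype.card_piFinset]
      have h7 : ∀ i : Fin n, (if i ∈ supp y then ({0} : Finset (ZMod 2)) else univ).card =
          if i ∈ supp y then 1 else 2 := by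
        intro i
        split_ifs
        · simp
        · rw [card_univ, ZMod.card]
      simp only [h7]
      rw [prod_ite, prod_const_one, one_mul, prod_const]
      congr 1
      have h8 : (univ.filter fun i => i ∉ supp y) = (supp y)ᶜ := by
        ext i
        simp
      rw [h8, card_compl, Fintype.card_fin, h]
    · have h2 : {x | (y, x) ∈ Prod.swap ⁻¹' (Ex n k)} = ∅ := by
        ext x
        simp only [Ex, Set.mem_preimage, Prod.swap_prod_mk, Set.mem_empty_iff_false, iff_false]
        exact fun h3 => h h3.1
      rw [h2, Set.ncard_empty]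
  rw [Finset.sum_congr rfl fun y _ => h1 y]
  rw [← Finset.sum_filter, sum_const, smul_eq_mul]
  congr 1
  have h3 : (powersetCard k (univ : Finset (Fin n))).card = n.choose k := by
    rw [card_powersetCard, card_univ, Fintype.card_fin]
  rw [← h3]
  refine card_bij (fun y _ => supp y) ?_ ?_ ?_
  · intro y hy
    rw [mem_filter] at hy
    rw [mem_powersetCard]
    exact ⟨subset_univ _, hy.2⟩
  · intro y _ y' _ h
    ext i
    have h4 : i ∈ supp y ↔ i ∈ supp y' := by rw [h]
    simp only [supp, mem_filter, mem_univ, true_and] at h4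
    generalize y i = a at *
    generalize y' i = b at *
    revert a b
    decide
  · intro T hT
    rw [mem_powersetCard] at hT
    have h5 : supp (fun i => if i ∈ T then (1 : ZMod 2) else 0) = T := by
      ext i
      simp only [supp, mem_filter, mem_univ, true_and]
      by_cases hi : i ∈ T <;> simp [hi]
    refine ⟨fun i => if i ∈ T then 1 else 0, ?_, h5⟩
    rw [mem_filter]
    refine ⟨mem_univ _, ?_⟩
    rw [h5]
    exact hT.2

theorem Ex_affine {n k : ℕ} {p : V n × V n} (hp : p ∈ Ex n k) :
    ∃ L : V n →ₗ[ZMod 2] (Fin k → ZMod 2), {w | L w = 0 ∧ (p.1 + w, p.2) ∉ Ex n k} = ∅ := by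
  classical
  have e := (supp p.2).equivFinOfCardEq hp.1
  refine ⟨LinearMap.pi fun j => LinearMap.proj ((e.symm j : Fin n)), ?_⟩
  ext w
  simp only [Set.mem_empty_iff_false, iff_false]
  rintro ⟨h1, h2⟩
  apply h2
  refine ⟨hp.1, fun i hi => ?_⟩
  have h3 : i ∈ supp p.2 := by simpa [supp] using hi
  have h4 := congrFun h1 (e ⟨i, h3⟩)
  simp only [LinearMap.pi_apply, Equiv.symm_apply_apply, LinearMap.proj_apply, Pi.zero_apply] at h4
  simp only [Pi.add_apply]
  rw [hp.2 i hi, h4, add_zero]

end Pool.Agent.Q108.CF
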