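import Pool.Agent.Q108.CF.Basic

/-! Corner-free subsets of `(F_2^n)^2` with low-degree certificates. -/

set_option autoImplicit false

namespace Pool.Agent.Q108.CF

open Finset

/-- `A` contains no corner `(x, y), (x, y + z), (x + z, y)` with `z ≠ 0` -/
def CornerFree {n : ℕ} (A : Set (V n × V n)) : Prop :=
  ∀ x y z : V n, z ≠ 0 → ¬ ((x, y) ∈ A ∧ (x, y + z) ∈ A ∧ (x + z, y) ∈ A)

/-- a function `f` of degree at most `k` over `K`, not zero at the point `p`, is supported, in the
row of `p`, by `B` and at most `s` further points -/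
def RowCert (K : Type) [Field K] {n : ℕ} (k s : ℕ) (B : Set (V n × V n)) (p : V n × V n) : Prop :=
  ∃ f ∈ Poly K n k, f p.1 ≠ 0 ∧ {u | f u ≠ 0 ∧ (u, p.2) ∉ B}.ncard ≤ s

/-- the same in the column of `p` -/
def ColCert (K : Type) [Field K] {n : ℕ} (k s : ℕ) (B : Set (V n × V n)) (p : V n × V n) : Prop :=
  ∃ f ∈ Poly K n k, f p.2 ≠ 0 ∧ {v | f v ≠ 0 ∧ (p.1, v) ∉ B}.ncard ≤ s

/-- the same in the diagonal `{(u, p.1 + p.2 + u)}` of `p` -/
def DiagCert (K : Type) [Field K] {n : ℕ} (k s : ℕ) (B : Set (V n × V n)) (p : V n × V n) : Prop :=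
  ∃ f ∈ Poly K n k, f p.1 ≠ 0 ∧ {u | f u ≠ 0 ∧ (u, p.1 + p.2 + u) ∉ B}.ncard ≤ s

variable {K : Type} [Field K] {n : ℕ}

theorem add_self (x : V n) : x + x = 0 := by
  ext i
  exact CharTwo.add_self_eq_zero (x i)

theorem add_ne {x y : V n} (h : x ≠ y) : x + y ≠ 0 := by
  intro h0
  apply h
  have : x + y + y = 0 + y := by rw [h0]
  rw [add_assoc, add_self, add_zero, zero_add] at this
  exact this

open scoped Classical in
/-- one column -/
theorem column {A B C S : Set (V n × V n)} (hA : CornerFree A) (hS : S ⊆ A) (hBC : B ∩ C ⊆ A)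
    {k l s t : ℕ} (h : ∀ p ∈ S, RowCert K k s B p ∧ DiagCert K l t C p) (x : V n) :
    (univ.filter fun y => (x, y) ∈ S).card ≤ (s + t + 1) * (ball n k * ball n l) := by
  set Y : Finset (V n) := univ.filter fun y => (x, y) ∈ S with hY
  have memY : ∀ y, y ∈ Y ↔ (x, y) ∈ S := fun y => by simp [hY]
  have hf : ∀ y, ∃ f ∈ Poly K n k, (x, y) ∈ S →
      (f x ≠ 0 ∧ {u | f u ≠ 0 ∧ (u, y) ∉ B}.ncard ≤ s) := by
    intro y
    by_cases hy : (x, y) ∈ S
    · obtain ⟨f, hf, h1, h2⟩ := (h _ hy).1
      exact ⟨f, hf, fun _ => ⟨h1, h2⟩⟩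
    · exact ⟨0, Submodule.zero_mem _, fun h => absurd h hy⟩
  have hg : ∀ y, ∃ g ∈ Poly K n l, (x, y) ∈ S →
      (g x ≠ 0 ∧ {u | g u ≠ 0 ∧ (u, x + y + u) ∉ C}.ncard ≤ t) := by
    intro y
    by_cases hy : (x, y) ∈ S
    · obtain ⟨f, hf, h1, h2⟩ := (h _ hy).2
      exact ⟨f, hf, fun _ => ⟨h1, h2⟩⟩
    · exact ⟨0, Submodule.zero_mem _, fun h => absurd h hy⟩
  choose f hfP hfS using hf
  choose g hgP hgS using hg
  have ha : ∀ y, ∃ c : Finset (Fin n) → K, ∀ z, f y (z + (x + y)) =
      ∑ S ∈ monos n k, c S * mono K S z := fun y => exists_coeff (shift_mem (hfP y) (x + y))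
  have hb : ∀ y, ∃ c : Finset (Fin n) → K, ∀ z, g y (z + (x + y)) =
      ∑ S ∈ monos n l, c S * mono K S z := fun y => exists_coeff (shift_mem (hgP y) (x + y))
  choose a ha using ha
  choose b hb using hb
  set P : V n → V n → K := fun y y' => f y (y' + (x + y)) * g y' (y + (x + y')) with hP
  have key := card_le_of_span P (s + t) Y ?_ ?_ (monos n k ×ˢ monos n l)
    (fun q y' => mono K q.1 y' * b y' q.2) (fun q y => a y q.1 * mono K q.2 y) ?_
  · rw [card_product, card_monos, card_monos] at key
    exact key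
  · intro y hy
    have hyS := (memY y).1 hy
    have h1 : y + (x + y) = x := by
      rw [add_left_comm, add_self, add_zero]
    simp only [hP, h1]
    exact mul_ne_zero (hfS y hyS).1 (hgS y hyS).1
  · intro Y' hY'
    have hsub : ((Y' ×ˢ Y').filter fun q => q.1 ≠ q.2 ∧ P q.1 q.2 ≠ 0) ⊆
        (Y'.biUnion fun y => (univ.filter fun u => f y u ≠ 0 ∧ (u, y) ∉ B).image
          fun u => (y, u + (x + y))) ∪
        (Y'.biUnion fun y' => (univ.filter fun u => g y' u ≠ 0 ∧ (u, x + y' + u) ∉ C).image
          fun u => (u + (x + y'), y')) := by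
      rintro ⟨y, y'⟩ hq
      rw [mem_filter, mem_product] at hq
      obtain ⟨⟨hy, hy'⟩, hne, hPne⟩ := hq
      simp only at hy hy' hne hPne
      have h1 : f y (y' + (x + y)) ≠ 0 := fun h0 => hPne (by simp [hP, h0])
      have h2 : g y' (y + (x + y')) ≠ 0 := fun h0 => hPne (by simp [hP, h0])
      have hyS := (memY y).1 (hY' hy)
      have hyS' := (memY y').1 (hY' hy')
      have e1 : y' + (x + y) = x + (y + y') := by abel
      have e2 : y + (x + y') = x + (y + y') := by abel
      rw [e1] at h1
      rw [e2] at h2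
      have hno : ¬ ((x + (y + y'), y) ∈ B ∧ (x + (y + y'), y) ∈ C) := by
        intro hBC'
        refine hA x y (y + y') (add_ne hne) ⟨hS hyS, ?_, hBC hBC'⟩
        rw [← add_assoc, add_self, zero_add]
        exact hS hyS'
      rw [mem_union, mem_biUnion, mem_biUnion]
      by_cases hB : (x + (y + y'), y) ∈ B
      · right
        refine ⟨y', hy', ?_⟩
        rw [mem_image]
        refine ⟨x + (y + y'), ?_, ?_⟩
        · rw [mem_filter]
          refine ⟨mem_univ _, h2, ?_⟩
          have e3 : x + y' + (x + (y + y')) = y := by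
            have : x + y' + (x + (y + y')) = (x + x) + (y' + y') + y := by abel
            rw [this, add_self, add_self, add_zero, zero_add]
          rw [e3]
          exact fun hC => hno ⟨hB, hC⟩
        · have e4 : x + (y + y') + (x + y') = y := by
            have : x + (y + y') + (x + y') = (x + x) + (y' + y') + y := by abel
            rw [this, add_self, add_self, add_zero, zero_add]
          rw [e4]
      · left
        refine ⟨y, hy, ?_⟩
        rw [mem_image]
        refine ⟨x + (y + y'), ?_, ?_⟩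
        · rw [mem_filter]
          exact ⟨mem_univ _, h1, hB⟩
        · have e4 : x + (y + y') + (x + y) = y' := by
            have : x + (y + y') + (x + y) = (x + x) + (y + y) + y' := by abel
            rw [this, add_self, add_self, add_zero, zero_add]
          rw [e4]
    have hfin := (card_le_card hsub).trans (card_union_le _ _)
    have c1 : (Y'.biUnion fun y => (univ.filter fun u => f y u ≠ 0 ∧ (u, y) ∉ B).image
          fun u => (y, u + (x + y))).card ≤ Y'.card * s := by
      refine card_biUnion_le_card_mul _ _ _ fun y hy => card_image_le.trans ?_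
      have := (hfS y ((memY y).1 (hY' hy))).2
      rwa [Set.ncard_eq_toFinset_card', Set.toFinset_ofPred] at this
    have c2 : (Y'.biUnion fun y' => (univ.filter fun u => g y' u ≠ 0 ∧ (u, x + y' + u) ∉ C).image
          fun u => (u + (x + y'), y')).card ≤ Y'.card * t := by
      refine card_biUnion_le_card_mul _ _ _ fun y hy => card_image_le.trans ?_
      have := (hgS y ((memY y).1 (hY' hy))).2
      rwa [Set.ncard_eq_toFinset_card', Set.toFinset_ofPred] at this
    have c3 := hfin.trans (Nat.add_le_add c1 c2)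
    have c4 : Y'.card * s + Y'.card * t = (s + t) * Y'.card := by ring
    rw [c4] at c3
    refine le_trans (le_of_eq ?_) c3
    apply congrArg
    ext q
    simp only [mem_filter]
  · intro y hy y'
    simp only [hP]
    rw [ha y y', hb y' y, sum_mul_sum, sum_product]
    refine Finset.sum_congr rfl fun S _ => Finset.sum_congr rfl fun T _ => ?_
    ring

theorem ncard_eq_sum (S : Set (V n × V n)) :
    S.ncard = ∑ x : V n, {y | (x, y) ∈ S}.ncard := by
  classical
  have h1 : ∀ x : V n, {y | (x, y) ∈ S}.ncard = (univ.filter fun y => (x, y) ∈ S).card := by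
    intro x
    rw [Set.ncard_eq_toFinset_card', Set.toFinset_ofPred]
  simp only [h1]
  rw [Set.ncard_eq_toFinset_card']
  rw [card_eq_sum_card_fiberwise (f := Prod.fst) (t := univ) (fun _ _ => by simp)]
  refine Finset.sum_congr rfl fun x _ => ?_
  refine card_bij (fun p _ => p.2) ?_ ?_ ?_
  · rintro ⟨a, b⟩ h
    simp only [mem_filter, Set.mem_toFinset, mem_univ, true_and] at h ⊢
    obtain ⟨h, rfl⟩ := h
    exact h
  · rintro ⟨a, b⟩ h ⟨a', b'⟩ h' hb
    simp only [mem_filter, Set.mem_toFinset] at h h' hb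
    obtain ⟨-, rfl⟩ := h
    obtain ⟨-, rfl⟩ := h'
    rw [hb]
  · intro b hb
    simp only [mem_filter, mem_univ, true_and] at hb
    refine ⟨(x, b), ?_, rfl⟩
    simp only [mem_filter, Set.mem_toFinset, and_true]
    exact hb

theorem two_certs {A B C S : Set (V n × V n)} (hA : CornerFree A) (hS : S ⊆ A) (hBC : B ∩ C ⊆ A)
    {k l s t : ℕ} (h : ∀ p ∈ S, RowCert K k s B p ∧ DiagCert K l t C p) :
    S.ncard ≤ (s + t + 1) * (ball n k * ball n l) * 2 ^ n := by
  classical
  rw [ncard_eq_sum]
  have h1 : ∀ x ∈ (univ : Finset (V n)), {y | (x, y) ∈ S}.ncard ≤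
      (s + t + 1) * (ball n k * ball n l) := by
    intro x _
    have := column hA hS hBC h x
    rw [Set.ncard_eq_toFinset_card', Set.toFinset_ofPred]
    exact this
  refine (Finset.sum_le_card_nsmul _ _ _ h1).trans (le_of_eq ?_)
  rw [smul_eq_mul, card_univ, Fintype.card_fun, ZMod.card, Fintype.card_fin]
  ring

theorem ball_zero : ball n 0 = 1 := by simp [ball]

/-- the constant certificate -/
theorem diag_univ (p : V n × V n) : DiagCert K 0 0 Set.univ p :=
  ⟨fun _ => 1, one_mem 0, one_ne_zero, by simp⟩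

theorem row_univ (p : V n × V n) : RowCert K 0 0 Set.univ p :=
  ⟨fun _ => 1, one_mem 0, one_ne_zero, by simp⟩

theorem row_bound {A : Set (V n × V n)} (hA : CornerFree A) (k s : ℕ) :
    {p ∈ A | RowCert K k s A p}.ncard ≤ (s + 1) * ball n k * 2 ^ n := by
  have := two_certs (K := K) (k := k) (l := 0) (s := s) (t := 0) (S := {p ∈ A | RowCert K k s A p})
    hA (fun p hp => hp.1) (B := A) (C := Set.univ) Set.inter_subset_left
    (fun p hp => ⟨hp.2, diag_univ p⟩)
  rw [ball_zero, mul_one, add_zero] at this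
  exact this

theorem diag_bound {A : Set (V n × V n)} (hA : CornerFree A) (k s : ℕ) :
    {p ∈ A | DiagCert K k s A p}.ncard ≤ (s + 1) * ball n k * 2 ^ n := by
  have := two_certs (K := K) (k := 0) (l := k) (s := 0) (t := s) (S := {p ∈ A | DiagCert K k s A p})
    hA (fun p hp => hp.1) (B := Set.univ) (C := A) Set.inter_subset_right
    (fun p hp => ⟨row_univ p, hp.2⟩)
  rw [ball_zero, one_mul, zero_add] at this
  exact this

theorem cornerFree_swap {A : Set (V n × V n)} (hA : CornerFree A) :
    CornerFree (Prod.swap ⁻¹' A) := by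
  rintro x y z hz ⟨h1, h2, h3⟩
  exact hA y x z hz ⟨h1, h3, h2⟩

theorem col_bound {A : Set (V n × V n)} (hA : CornerFree A) (k s : ℕ) :
    {p ∈ A | ColCert K k s A p}.ncard ≤ (s + 1) * ball n k * 2 ^ n := by
  have h1 := row_bound (K := K) (cornerFree_swap hA) k s
  have h2 : {p ∈ A | ColCert K k s A p} =
      Prod.swap '' {p ∈ Prod.swap ⁻¹' A | RowCert K k s (Prod.swap ⁻¹' A) p} := by
    rw [Set.image_swap_eq_preimage_swap]
    ext ⟨x, y⟩
    rfl
  rw [h2, Set.ncard_image_of_injective _ Prod.swap_injective]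
  exact h1

theorem three_bound {A : Set (V n × V n)} (hA : CornerFree A) (k s : ℕ) :
    {p ∈ A | RowCert K k s A p ∨ ColCert K k s A p ∨ DiagCert K k s A p}.ncard ≤
      3 * ((s + 1) * ball n k * 2 ^ n) := by
  have h1 : {p ∈ A | RowCert K k s A p ∨ ColCert K k s A p ∨ DiagCert K k s A p} ⊆
      {p ∈ A | RowCert K k s A p} ∪ ({p ∈ A | ColCert K k s A p} ∪ {p ∈ A | DiagCert K k s A p}) := by
    rintro p ⟨hp, h | h | h⟩
    · exact Or.inl ⟨hp, h⟩
    · exact Or.inr (Or.inl ⟨hp, h⟩)
    · exact Or.inr (Or.inr ⟨hp, h⟩)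
  refine (Set.ncard_le_ncard h1 (Set.toFinite _)).trans ((Set.ncard_union_le _ _).trans ?_)
  have h2 := Set.ncard_union_le {p ∈ A | ColCert K k s A p} {p ∈ A | DiagCert K k s A p}
  have h3 := row_bound (K := K) hA k s
  have h4 := col_bound (K := K) hA k s
  have h5 := diag_bound (K := K) hA k s
  omega

/-- the indicator function of an affine subspace of codimension at most `k` has degree at most `k`
over `F_2` -/
theorem affine_mem {k : ℕ} (L : V n →ₗ[ZMod 2] (Fin k → ZMod 2)) (a : V n) :
    (fun u => if L (u + a) = 0 then (1 : ZMod 2) else 0) ∈ Poly (ZMod 2) n k := by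
  classical
  have hlin : ∀ (M : V n →ₗ[ZMod 2] ZMod 2), (fun u => M u) ∈ Poly (ZMod 2) n 1 := by
    intro M
    have h1 : (fun u => M u) = ∑ i : Fin n, M (Pi.single i 1) • mono (ZMod 2) {i} := by
      ext u
      rw [Finset.sum_apply]
      have h2 : u = ∑ i : Fin n, u i • (Pi.single i (1 : ZMod 2) : V n) := by
        ext j
        rw [Finset.sum_apply]
        simp [Pi.single_apply]
      conv_lhs => rw [h2]
      rw [map_sum]
      refine Finset.sum_congr rfl fun i _ => ?_
      rw [map_smul, smul_eq_mul, Pi.smul_apply, smul_eq_mul, mul_comm]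
      congr 1
      simp only [mono, mem_singleton, forall_eq]
      generalize u i = w
      revert w
      decide
    rw [h1]
    exact Submodule.sum_mem _ fun i _ => Submodule.smul_mem _ _ (mono_mem (by simp))
  have hprod : ∀ T : Finset (Fin k), (fun u : V n => ∏ j ∈ T, (1 + L (u + a) j)) ∈
      Poly (ZMod 2) n T.card := by
    intro T
    induction T using Finset.induction_on with
    | empty => simpa using one_mem 0
    | insert j T hj ih =>
      rw [card_insert_of_notMem hj, Nat.add_comm]
      have h3 : (fun u : V n => ∏ j ∈ insert j T, (1 + L (u + a) j)) =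
          (fun u => 1 + L (u + a) j) * (fun u : V n => ∏ j ∈ T, (1 + L (u + a) j)) := by
        ext u
        rw [prod_insert hj]
        rfl
      rw [h3]
      refine mul_mem ?_ ih
      have h4 : (fun u => 1 + L (u + a) j) =
          (fun _ => 1) + fun u => (fun v => ((LinearMap.proj j).comp L) v) (u + a) := by
        ext u
        rfl
      rw [h4]
      exact Submodule.add_mem _ (one_mem 1) (shift_mem (hlin ((LinearMap.proj j).comp L)) a)
  have h5 := hprod univ
  rw [card_univ, Fintype.card_fin] at h5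
  convert h5 using 1
  ext u
  by_cases h6 : L (u + a) = 0
  · rw [if_pos h6, h6]
    simp
  · rw [if_neg h6]
    obtain ⟨j, hj⟩ := Function.ne_iff.1 h6
    symm
    apply prod_eq_zero (mem_univ j)
    simp only [Pi.zero_apply] at hj
    generalize L (u + a) j = w at hj
    revert w
    decide

end Pool.Agent.Q108.CF
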