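import Pool.Agent.Q108.CF.Main

/-! Numerical bounds for the number of small subsets. -/

set_option autoImplicit false

namespace Pool.Agent.Q108.CF

open Finset

theorem ball_mul_le (n k : ℕ) (t : ℝ) (h0 : 0 < t) (h1 : t ≤ 1) :
    (ball n k : ℝ) * t ^ k ≤ (1 + t) ^ n := by
  have e1 : (1 + t) ^ n = ∑ i ∈ range (n + 1), (n.choose i : ℝ) * t ^ i := by
    rw [add_comm, add_pow]
    refine Finset.sum_congr rfl fun i _ => ?_
    rw [one_pow, mul_one, mul_comm]
  have e2 : ∑ i ∈ range (n + 1), (n.choose i : ℝ) * t ^ i =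
      ∑ i ∈ range (max n k + 1), (n.choose i : ℝ) * t ^ i := by
    refine Finset.sum_subset (range_mono (by have := le_max_left n k; omega)) fun i _ hi => ?_
    rw [mem_range, not_lt] at hi
    rw [Nat.choose_eq_zero_of_lt (by omega)]
    simp
  rw [e1, e2]
  unfold ball
  push_cast
  rw [sum_mul]
  calc ∑ i ∈ range (k + 1), (n.choose i : ℝ) * t ^ k
      ≤ ∑ i ∈ range (k + 1), (n.choose i : ℝ) * t ^ i := by
        refine Finset.sum_le_sum fun i hi => ?_
        rw [mem_range] at hi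
        exact mul_le_mul_of_nonneg_left (pow_le_pow_of_le_one h0.le h1 (by omega)) (by positivity)
    _ ≤ _ := by
        refine Finset.sum_le_sum_of_subset_of_nonneg
          (range_mono (by have := le_max_right n k; omega)) fun i _ _ => by positivity

/-- subsets with at most `(1/2 - ε) n` elements -/
theorem ball_le_exp (n k : ℕ) (ε : ℝ) (h0 : 0 ≤ ε) (hk : (k : ℝ) ≤ (1 / 2 - ε) * n) :
    (ball n k : ℝ) ≤ 2 ^ n * Real.exp (-(2 * ε ^ 2 * n)) := by
  have h1 := ball_mul_le n k (Real.exp (-(4 * ε))) (Real.exp_pos _)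
    (Real.exp_le_one_iff.2 (by linarith))
  have h2 : (1 + Real.exp (-(4 * ε))) = Real.exp (-(2 * ε)) * (2 * Real.cosh (2 * ε)) := by
    rw [Real.cosh_eq]
    have e1 : Real.exp (-(2 * ε)) * Real.exp (2 * ε) = 1 := by rw [← Real.exp_add]; simp
    have e2 : Real.exp (-(2 * ε)) * Real.exp (-(2 * ε)) = Real.exp (-(4 * ε)) := by
      rw [← Real.exp_add]; ring_nf
    calc 1 + Real.exp (-(4 * ε)) =
        Real.exp (-(2 * ε)) * Real.exp (2 * ε) + Real.exp (-(2 * ε)) * Real.exp (-(2 * ε)) := by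
          rw [e1, e2]
      _ = _ := by ring
  have h3 := Real.cosh_le_exp_half_sq (2 * ε)
  have h4 : (1 + Real.exp (-(4 * ε))) ^ n ≤ 2 ^ n * Real.exp ((-(2 * ε) + 2 * ε ^ 2) * n) := by
    rw [h2]
    calc (Real.exp (-(2 * ε)) * (2 * Real.cosh (2 * ε))) ^ n
        ≤ (Real.exp (-(2 * ε)) * (2 * Real.exp ((2 * ε) ^ 2 / 2))) ^ n := by
          have := Real.cosh_pos (2 * ε)
          gcongr
      _ = (2 * Real.exp (-(2 * ε) + 2 * ε ^ 2)) ^ n := by
          rw [Real.exp_add]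
          have : (2 * ε) ^ 2 / 2 = 2 * ε ^ 2 := by ring
          rw [this]
          ring
      _ = _ := by
          rw [mul_pow, ← Real.exp_nat_mul]
          ring_nf
  have h5 : Real.exp (-(4 * ε)) ^ k = Real.exp (-(4 * ε * k)) := by
    rw [← Real.exp_nat_mul]
    ring_nf
  rw [h5] at h1
  have h6 : (ball n k : ℝ) = (ball n k : ℝ) * Real.exp (-(4 * ε * k)) * Real.exp (4 * ε * k) := by
    rw [mul_assoc, ← Real.exp_add]
    simp
  rw [h6]
  calc (ball n k : ℝ) * Real.exp (-(4 * ε * k)) * Real.exp (4 * ε * k)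
      ≤ (2 ^ n * Real.exp ((-(2 * ε) + 2 * ε ^ 2) * n)) * Real.exp (4 * ε * ((1 / 2 - ε) * n)) := by
        refine mul_le_mul (h1.trans h4) (Real.exp_le_exp.2 ?_) (Real.exp_pos _).le (by positivity)
        exact mul_le_mul_of_nonneg_left hk (by linarith)
    _ = 2 ^ n * Real.exp (-(2 * ε ^ 2 * n)) := by
        rw [mul_assoc, ← Real.exp_add]
        ring_nf

/-- subsets with at most `n / 10` elements -/
theorem ball_le_tenth (n k : ℕ) (hk : 10 * k ≤ n) : (ball n k : ℝ) ≤ (1.3845 : ℝ) ^ n := by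
  have h1 := ball_mul_le n k (1 / 9) (by norm_num) (by norm_num)
  have h2 : ((1 / 9 : ℝ)) ^ k * 9 ^ k = 1 := by
    rw [← mul_pow]
    norm_num
  have h3 : (9 : ℝ) ^ k ≤ (1.246 : ℝ) ^ n := by
    have h4 : ((9 : ℝ) ^ k) ^ 10 ≤ ((1.246 : ℝ) ^ n) ^ 10 := by
      rw [← pow_mul, ← pow_mul, mul_comm n 10, pow_mul (1.246 : ℝ)]
      calc (9 : ℝ) ^ (k * 10) ≤ 9 ^ n := pow_le_pow_right₀ (by norm_num) (by omega)
        _ ≤ _ := pow_le_pow_left₀ (by norm_num) (by norm_num) n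
    exact le_of_pow_le_pow_left₀ (by norm_num) (by positivity) h4
  have h7 : (ball n k : ℝ) = (ball n k : ℝ) * (1 / 9) ^ k * 9 ^ k := by
    rw [mul_assoc, h2, mul_one]
  rw [h7]
  calc (ball n k : ℝ) * (1 / 9) ^ k * 9 ^ k ≤ (1 + 1 / 9) ^ n * (1.246 : ℝ) ^ n :=
        mul_le_mul h1 h3 (by positivity) (by positivity)
    _ = ((1 + 1 / 9) * 1.246) ^ n := by rw [mul_pow]
    _ ≤ _ := pow_le_pow_left₀ (by norm_num) (by norm_num) n

end Pool.Agent.Q108.CF
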